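import Mathlib

/-! Filling rows from the bottom: a queue discipline allows at least as many completions as the
corresponding stack discipline. -/

set_option autoImplicit false

namespace Pool.Agent.Q296.Dist

open Finset

/-- `D pre c`: column `c` is dominated when the columns `pre` have been used (in this order). -/
structure Dom (D : List ℕ → ℕ → Prop) : Prop where
  app : ∀ (pre suf : List ℕ) (c : ℕ), D pre c → D (pre ++ suf) c
  up : ∀ (pre : List ℕ) (c c' : ℕ), c ≤ c' → D pre c → D pre c'
  del : ∀ (pre : List ℕ) (e : ℕ) (suf : List ℕ) (c : ℕ), D pre e →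
    (D (pre ++ e :: suf) c ↔ D (pre ++ suf) c)

open Classical in
/-- number of orderings of `U` all of whose steps are allowed by `ok` -/
noncomputable def N (ok : List ℕ → Finset ℕ → ℕ → Prop) : ℕ → List ℕ → Finset ℕ → ℕ
  | 0, _, U => if U = ∅ then 1 else 0
  | n + 1, pre, U => ∑ c ∈ U.filter (ok pre U), N ok n (pre ++ [c]) (U.erase c)

/-- the queue rule -/
def ok12 (D : List ℕ → ℕ → Prop) (r : ℕ) (pre : List ℕ) (U : Finset ℕ) (c : ℕ) : Prop :=
  ¬ (D pre c ∧ ∃ b ∈ U, c + r < b)

/-- the stack rule -/
def ok21 (D : List ℕ → ℕ → Prop) (r : ℕ) (pre : List ℕ) (U : Finset ℕ) (c : ℕ) : Prop :=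
  ¬ ∃ a ∈ U, D pre a ∧ a + r < c

variable {D : List ℕ → ℕ → Prop} {r : ℕ}

open Classical in
lemma N12_congr : ∀ (n : ℕ) (pre pre' : List ℕ) (U : Finset ℕ),
    (∀ suf c, D (pre ++ suf) c ↔ D (pre' ++ suf) c) →
    N (ok12 D r) n pre U = N (ok12 D r) n pre' U := by
  intro n
  induction n with
  | zero => intro pre pre' U _; simp [N]
  | succ n ih =>
    intro pre pre' U h
    simp only [N]
    have h0 : ∀ c, D pre c ↔ D pre' c := fun c => by simpa using h [] c
    have e : U.filter (ok12 D r pre U) = U.filter (ok12 D r pre' U) := by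
      apply Finset.filter_congr
      intro c _
      simp only [ok12, h0]
    rw [e]
    apply Finset.sum_congr rfl
    intro c _
    apply ih
    intro suf c'
    rw [List.append_assoc, List.append_assoc]
    exact h _ _

lemma N12_del (hD : Dom D) {n : ℕ} {pre : List ℕ} {e : ℕ} {U : Finset ℕ} (h : D pre e) :
    N (ok12 D r) n (pre ++ [e]) U = N (ok12 D r) n pre U := by
  apply N12_congr
  intro suf c
  rw [List.append_assoc]
  exact hD.del pre e suf c h

open Classical in
lemma N12_succ (hD : Dom D) (n : ℕ) (pre : List ℕ) (U : Finset ℕ) :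
    N (ok12 D r) (n + 1) pre U =
      ∑ c ∈ U.filter (fun c => ¬ D pre c), N (ok12 D r) n (pre ++ [c]) (U.erase c) +
      ∑ x ∈ U.filter (fun x => D pre x ∧ ∀ b ∈ U, b ≤ x + r),
        N (ok12 D r) n pre (U.erase x) := by
  simp only [N]
  have e : U.filter (ok12 D r pre U) = U.filter (fun c => ¬ D pre c) ∪
      U.filter (fun x => D pre x ∧ ∀ b ∈ U, b ≤ x + r) := by
    ext c
    simp only [Finset.mem_filter, Finset.mem_union, ok12]
    constructor
    · rintro ⟨h1, h2⟩
      by_cases h : D pre c
      · right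
        refine ⟨h1, h, fun b hb => ?_⟩
        by_contra hc
        exact h2 ⟨h, b, hb, by omega⟩
      · exact Or.inl ⟨h1, h⟩
    · rintro (⟨h1, h2⟩ | ⟨h1, h2, h3⟩)
      · exact ⟨h1, fun h => h2 h.1⟩
      · refine ⟨h1, ?_⟩
        rintro ⟨_, b, hb, hc⟩
        have := h3 b hb
        omega
  rw [e, Finset.sum_union]
  · congr 1
    apply Finset.sum_congr rfl
    intro x hx
    rw [Finset.mem_filter] at hx
    exact N12_del hD hx.2.1
  · rw [Finset.disjoint_left]
    intro c hc hc'
    rw [Finset.mem_filter] at hc hc'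
    exact hc.2 hc'.2.1

open Classical in
lemma N21_succ (hD : Dom D) (n : ℕ) (pre : List ℕ) (U : Finset ℕ) :
    N (ok21 D r) (n + 1) pre U =
      ∑ c ∈ U.filter (fun c => ¬ D pre c), N (ok21 D r) n (pre ++ [c]) (U.erase c) +
      ∑ x ∈ U.filter (fun x => D pre x ∧ ∀ a ∈ U, D pre a → x ≤ a + r),
        N (ok21 D r) n (pre ++ [x]) (U.erase x) := by
  simp only [N]
  have e : U.filter (ok21 D r pre U) = U.filter (fun c => ¬ D pre c) ∪
      U.filter (fun x => D pre x ∧ ∀ a ∈ U, D pre a → x ≤ a + r) := by
    ext c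
    simp only [Finset.mem_filter, Finset.mem_union, ok21]
    constructor
    · rintro ⟨h1, h2⟩
      by_cases h : D pre c
      · right
        refine ⟨h1, h, fun a ha hda => ?_⟩
        by_contra hc
        exact h2 ⟨a, ha, hda, by omega⟩
      · exact Or.inl ⟨h1, h⟩
    · rintro (⟨h1, h2⟩ | ⟨h1, h2, h3⟩)
      · refine ⟨h1, ?_⟩
        rintro ⟨a, ha, hda, hc⟩
        exact h2 (hD.up _ _ _ (by omega) hda)
      · refine ⟨h1, ?_⟩
        rintro ⟨a, ha, hda, hc⟩
        have := h3 a ha hda
        omega
  rw [e, Finset.sum_union]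
  rw [Finset.disjoint_left]
  intro c hc hc'
  rw [Finset.mem_filter] at hc hc'
  exact hc.2 hc'.2.1

open Classical in
theorem exchange (hD : Dom D) : ∀ (n : ℕ) (pre : List ℕ) (U A : Finset ℕ), A ⊆ U →
    (∀ u ∈ A, D pre u) → (∀ u ∈ A, ∀ v ∈ A, u ≤ v + r) →
    ∑ u ∈ A, N (ok12 D r) n pre (U.erase u) ≤
      ∑ x ∈ U.filter (fun x => D pre x ∧ ∀ b ∈ U, b ≤ x + r),
        N (ok12 D r) n pre (U.erase x) := by
  intro n
  induction n with
  | zero =>
    intro pre U A hAU hAD hA
    by_cases h : ∀ u ∈ A, ∀ b ∈ U, b ≤ u + r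
    · apply Finset.sum_le_sum_of_subset
      intro u hu
      rw [Finset.mem_filter]
      exact ⟨hAU hu, hAD u hu, h u hu⟩
    · push Not at h
      obtain ⟨u₀, hu₀, b₀, hb₀, h1⟩ := h
      rw [Finset.sum_eq_zero]
      · exact Nat.zero_le _
      · intro u hu
        have h2 := hA u hu u₀ hu₀
        have h3 : b₀ ∈ U.erase u := Finset.mem_erase.2 ⟨by omega, hb₀⟩
        simp only [N]
        rw [if_neg (Finset.ne_empty_of_mem h3)]
  | succ n ih =>
    intro pre U A hAU hAD hA
    by_cases h : ∀ u ∈ A, ∀ b ∈ U, b ≤ u + r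
    · apply Finset.sum_le_sum_of_subset
      intro u hu
      rw [Finset.mem_filter]
      exact ⟨hAU hu, hAD u hu, h u hu⟩
    push Not at h
    obtain ⟨u₀, hu₀, b₀, hb₀, h1⟩ := h
    have hDu₀ := hAD u₀ hu₀
    have hDb₀ : D pre b₀ := hD.up _ _ _ (by omega) hDu₀
    obtain ⟨Bs, hBs⟩ : ∃ Bs, Bs = U.filter (fun x => D pre x ∧ ∀ b ∈ U, b ≤ x + r) := ⟨_, rfl⟩
    obtain ⟨Z, hZ⟩ : ∃ Z, Z = U.filter (fun c => ¬ D pre c) := ⟨_, rfl⟩
    have memB : ∀ x, x ∈ Bs ↔ x ∈ U ∧ D pre x ∧ ∀ b ∈ U, b ≤ x + r := by
      intro x; rw [hBs, Finset.mem_filter]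
    have memZ : ∀ c, c ∈ Z ↔ c ∈ U ∧ ¬ D pre c := by
      intro c; rw [hZ, Finset.mem_filter]
    have ltZ : ∀ c ∈ Z, c < u₀ := by
      intro c hc
      by_contra h2
      exact ((memZ c).1 hc).2 (hD.up _ _ _ (by omega) hDu₀)
    rw [← hBs]
    -- left hand side
    have L1 : ∀ u ∈ A, N (ok12 D r) (n + 1) pre (U.erase u) =
        ∑ c ∈ Z, N (ok12 D r) n (pre ++ [c]) ((U.erase c).erase u) +
        ∑ x ∈ Bs.erase u, N (ok12 D r) n pre ((U.erase x).erase u) := by
      intro u hu
      have hu1 := hAU hu
      have hu2 := hAD u hu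
      have hu3 := hA u hu u₀ hu₀
      have hb : b₀ ∈ U.erase u := Finset.mem_erase.2 ⟨by omega, hb₀⟩
      rw [N12_succ hD]
      have e1 : (U.erase u).filter (fun c => ¬ D pre c) = Z := by
        ext c
        rw [Finset.mem_filter, Finset.mem_erase, memZ]
        constructor
        · rintro ⟨⟨_, h3⟩, h4⟩; exact ⟨h3, h4⟩
        · rintro ⟨h3, h4⟩
          exact ⟨⟨fun h => h4 (h ▸ hu2), h3⟩, h4⟩
      have e2 : (U.erase u).filter (fun x => D pre x ∧ ∀ b ∈ U.erase u, b ≤ x + r) =
          Bs.erase u := by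
        ext x
        rw [Finset.mem_filter, Finset.mem_erase, Finset.mem_erase, memB]
        constructor
        · rintro ⟨⟨h3, h4⟩, h5, h6⟩
          refine ⟨h3, h4, h5, fun b hb' => ?_⟩
          by_cases hbu : b = u
          · have := h6 b₀ hb
            omega
          · exact h6 b (Finset.mem_erase.2 ⟨hbu, hb'⟩)
        · rintro ⟨h3, h4, h5, h6⟩
          exact ⟨⟨h3, h4⟩, h5, fun b hb' => h6 b (Finset.mem_of_mem_erase hb')⟩
      rw [e1, e2]
      congr 1
      · apply Finset.sum_congr rfl
        intro c _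
        rw [Finset.erase_right_comm]
      · apply Finset.sum_congr rfl
        intro c _
        rw [Finset.erase_right_comm]
    have R1 : ∀ x ∈ Bs, N (ok12 D r) (n + 1) pre (U.erase x) =
        ∑ c ∈ Z, N (ok12 D r) n (pre ++ [c]) ((U.erase c).erase x) +
        ∑ v ∈ (U.erase x).filter (fun v => D pre v ∧ ∀ b ∈ U.erase x, b ≤ v + r),
          N (ok12 D r) n pre ((U.erase x).erase v) := by
      intro x hx
      rw [N12_succ hD]
      congr 1
      have e1 : (U.erase x).filter (fun c => ¬ D pre c) = Z := by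
        ext c
        rw [Finset.mem_filter, Finset.mem_erase, memZ]
        constructor
        · rintro ⟨⟨_, h3⟩, h4⟩; exact ⟨h3, h4⟩
        · rintro ⟨h3, h4⟩
          exact ⟨⟨fun h => h4 (h ▸ ((memB x).1 hx).2.1), h3⟩, h4⟩
      rw [e1]
      apply Finset.sum_congr rfl
      intro c _
      rw [Finset.erase_right_comm]
    rw [Finset.sum_congr rfl L1, Finset.sum_congr rfl R1, Finset.sum_add_distrib,
      Finset.sum_add_distrib]
    apply Nat.add_le_add
    · rw [Finset.sum_comm, Finset.sum_comm (s := Bs)]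
      apply Finset.sum_le_sum
      intro c hc
      have hc1 := (memZ c).1 hc
      have hc2 := ltZ c hc
      have h3 := ih (pre ++ [c]) (U.erase c) A
        (fun u hu => Finset.mem_erase.2 ⟨fun h => hc1.2 (h ▸ hAD u hu), hAU hu⟩)
        (fun u hu => hD.app _ _ _ (hAD u hu)) hA
      refine h3.trans (le_of_eq ?_)
      apply Finset.sum_congr _ (fun _ _ => rfl)
      ext x
      rw [Finset.mem_filter, Finset.mem_erase, memB]
      constructor
      · rintro ⟨⟨h4, h5⟩, h6, h7⟩
        have h8 := h7 b₀ (Finset.mem_erase.2 ⟨by omega, hb₀⟩)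
        refine ⟨h5, hD.up _ _ _ (by omega) hDu₀, fun b hb => ?_⟩
        by_cases hbc : b = c
        · omega
        · exact h7 b (Finset.mem_erase.2 ⟨hbc, hb⟩)
      · rintro ⟨h4, h5, h6⟩
        exact ⟨⟨fun h => hc1.2 (h ▸ h5), h4⟩, hD.app _ _ _ h5,
          fun b hb => h6 b (Finset.mem_of_mem_erase hb)⟩
    · rw [Finset.sum_comm' (t' := Bs) (s' := fun x => A.erase x) (by
        intro u x
        simp only [Finset.mem_erase]
        constructor
        · rintro ⟨h3, h4, h5⟩; exact ⟨⟨Ne.symm h4, h3⟩, h5⟩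
        · rintro ⟨⟨h3, h4⟩, h5⟩; exact ⟨h4, Ne.symm h3, h5⟩)]
      apply Finset.sum_le_sum
      intro x hx
      apply ih
      · exact Finset.erase_subset_erase _ hAU
      · intro u hu; exact hAD u (Finset.mem_of_mem_erase hu)
      · intro u hu v hv
        exact hA u (Finset.mem_of_mem_erase hu) v (Finset.mem_of_mem_erase hv)

open Classical in
/-- **stack ≤ queue** -/
theorem N21_le_N12 (hD : Dom D) : ∀ (n : ℕ) (pre : List ℕ) (U : Finset ℕ),
    N (ok21 D r) n pre U ≤ N (ok12 D r) n pre U := by
  intro n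
  induction n with
  | zero => intro pre U; simp [N]
  | succ n ih =>
    intro pre U
    rw [N12_succ hD, N21_succ hD]
    apply Nat.add_le_add
    · exact Finset.sum_le_sum fun c _ => ih _ _
    · refine le_trans (Finset.sum_le_sum fun c _ => ih _ _) ?_
      refine le_trans (le_of_eq ?_) (exchange hD n pre U
        (U.filter (fun x => D pre x ∧ ∀ a ∈ U, D pre a → x ≤ a + r)) (Finset.filter_subset _ _)
        (fun u hu => (Finset.mem_filter.1 hu).2.1) ?_)
      · apply Finset.sum_congr rfl
        intro c hc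
        exact N12_del hD (Finset.mem_filter.1 hc).2.1
      · intro u hu v hv
        rw [Finset.mem_filter] at hu hv
        exact hu.2.2 v hv.1 hv.2.1

open Classical in
/-- strictness is inherited through a free (undominated) move -/
theorem strict_move (hD : Dom D) {n : ℕ} {pre : List ℕ} {U : Finset ℕ} {c : ℕ} (hc : c ∈ U)
    (hDc : ¬ D pre c)
    (h : N (ok21 D r) n (pre ++ [c]) (U.erase c) < N (ok12 D r) n (pre ++ [c]) (U.erase c)) :
    N (ok21 D r) (n + 1) pre U < N (ok12 D r) (n + 1) pre U := by
  rw [N12_succ hD, N21_succ hD]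
  apply Nat.add_lt_add_of_lt_of_le
  · exact Finset.sum_lt_sum (fun c _ => N21_le_N12 hD _ _ _)
      ⟨c, Finset.mem_filter.2 ⟨hc, hDc⟩, h⟩
  · refine le_trans (Finset.sum_le_sum fun c _ => N21_le_N12 hD n _ _) ?_
    refine le_trans (le_of_eq ?_) (exchange hD n pre U
      (U.filter (fun x => D pre x ∧ ∀ a ∈ U, D pre a → x ≤ a + r)) (Finset.filter_subset _ _)
      (fun u hu => (Finset.mem_filter.1 hu).2.1) ?_)
    · apply Finset.sum_congr rfl
      intro c hc
      exact N12_del hD (Finset.mem_filter.1 hc).2.1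
    · intro u hu v hv
      rw [Finset.mem_filter] at hu hv
      exact hu.2.2 v hv.1 hv.2.1

/-- strictness is inherited along a path of free moves -/
theorem strict_path (hD : Dom D) : ∀ (l pre : List ℕ) (U : Finset ℕ) (n : ℕ), l.Nodup →
    (∀ c ∈ l, c ∈ U) → (∀ l1 c l2, l = l1 ++ c :: l2 → ¬ D (pre ++ l1) c) →
    N (ok21 D r) n (pre ++ l) (U \ l.toFinset) < N (ok12 D r) n (pre ++ l) (U \ l.toFinset) →
    N (ok21 D r) (n + l.length) pre U < N (ok12 D r) (n + l.length) pre U := by
  intro l
  induction l with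
  | nil => intro pre U n _ _ _ h; simpa using h
  | cons c l ih =>
    intro pre U n hnd hU hpath h
    rw [List.length_cons, ← add_assoc]
    apply strict_move hD (c := c) (hU c (by simp))
    · have := hpath [] c l (by simp)
      simpa using this
    · apply ih (pre ++ [c]) (U.erase c) n (List.nodup_cons.1 hnd).2
      · intro d hd
        refine Finset.mem_erase.2 ⟨?_, hU d (by simp [hd])⟩
        rintro rfl
        exact (List.nodup_cons.1 hnd).1 hd
      · intro l1 d l2 he
        have := hpath (c :: l1) d l2 (by rw [he]; rfl)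
        rw [List.append_assoc]
        exact this
      · have e1 : pre ++ [c] ++ l = pre ++ c :: l := by simp
        have e2 : (U.erase c) \ l.toFinset = U \ (c :: l).toFinset := by
          ext x
          simp only [Finset.mem_sdiff, Finset.mem_erase, List.mem_toFinset, List.mem_cons]
          tauto
        rw [e1, e2]
        exact h

/-- trivial upper bound -/
lemma N_le_factorial (ok : List ℕ → Finset ℕ → ℕ → Prop) : ∀ (n : ℕ) (pre : List ℕ)
    (U : Finset ℕ), U.card = n → N ok n pre U ≤ n.factorial := by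
  classical
  intro n
  induction n with
  | zero => intro pre U _; simp only [N]; split_ifs <;> simp
  | succ n ih =>
    intro pre U hU
    simp only [N]
    calc ∑ c ∈ U.filter (ok pre U), N ok n (pre ++ [c]) (U.erase c)
        ≤ ∑ c ∈ U.filter (ok pre U), n.factorial := by
          apply Finset.sum_le_sum
          intro c hc
          apply ih
          rw [Finset.card_erase_of_mem (Finset.mem_filter.1 hc).1, hU]
          rfl
      _ ≤ ∑ c ∈ U, n.factorial :=
          Finset.sum_le_sum_of_subset (Finset.filter_subset _ _)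
      _ = (n + 1).factorial := by
          rw [Finset.sum_const, hU, Nat.factorial_succ, smul_eq_mul]

/-- if nothing is ever forbidden, all orders count -/
lemma N12_eq_factorial : ∀ (n : ℕ) (pre : List ℕ) (U : Finset ℕ), U.card = n →
    (∀ suf, ∀ x ∈ U, ∀ b ∈ U, x + r < b → ¬ D (pre ++ suf) x) →
    N (ok12 D r) n pre U = n.factorial := by
  classical
  intro n
  induction n with
  | zero => intro pre U hU _; simp [N, Finset.card_eq_zero.1 hU]
  | succ n ih =>
    intro pre U hU h
    simp only [N]
    have e : U.filter (ok12 D r pre U) = U := by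
      rw [Finset.filter_eq_self]
      rintro x hx ⟨h1, b, hb, h2⟩
      have := h [] x hx b hb h2
      rw [List.append_nil] at this
      exact this h1
    rw [e, Finset.sum_congr rfl (g := fun _ => n.factorial), Finset.sum_const, hU,
      Nat.factorial_succ, smul_eq_mul]
    intro c hc
    apply ih
    · rw [Finset.card_erase_of_mem hc, hU]; rfl
    · intro suf x hx b hb hxb
      rw [List.append_assoc]
      exact h _ x (Finset.mem_of_mem_erase hx) b (Finset.mem_of_mem_erase hb) hxb

open Classical in
/-- the strict configuration: columns `z < a < a + 1 < a + r + 2` -/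
theorem strict_four (hD : Dom D) (hr : 1 ≤ r) {pre : List ℕ} {z a : ℕ} (hza : z < a)
    (hz : ∀ suf, ¬ D (pre ++ suf) z) (ha : ¬ D pre a) (hb : D pre (a + 1))
    (haz : D (pre ++ [z]) a) :
    N (ok21 D r) 4 pre {z, a, a + 1, a + r + 2} < N (ok12 D r) 4 pre {z, a, a + 1, a + r + 2} := by
  obtain ⟨U, hU⟩ : ∃ U : Finset ℕ, U = {z, a, a + 1, a + r + 2} := ⟨_, rfl⟩
  have memU : ∀ x, x ∈ U ↔ x = z ∨ x = a ∨ x = a + 1 ∨ x = a + r + 2 := by
    intro x; rw [hU]; simp
  have hz0 : ¬ D pre z := by simpa using hz []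
  have hc : D pre (a + r + 2) := hD.up _ _ _ (by omega) hb
  rw [← hU, N12_succ hD, N21_succ hD]
  apply Nat.add_lt_add_of_le_of_lt
  · exact Finset.sum_le_sum fun c _ => N21_le_N12 hD _ _ _
  · have e1 : U.filter (fun x => D pre x ∧ ∀ a ∈ U, D pre a → x ≤ a + r) = {a + 1} := by
      ext x
      rw [Finset.mem_filter, Finset.mem_singleton, memU]
      constructor
      · rintro ⟨h1 | h1 | h1 | h1, h2, h3⟩
        · exact absurd (h1 ▸ h2) hz0
        · exact absurd (h1 ▸ h2) ha
        · exact h1
        · have := h3 (a + 1) ((memU _).2 (by simp)) hb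
          omega
      · rintro rfl
        refine ⟨by simp, hb, fun y hy hDy => ?_⟩
        rcases (memU y).1 hy with h | h | h | h
        · exact absurd (h ▸ hDy) hz0
        · exact absurd (h ▸ hDy) ha
        · omega
        · omega
    have e2 : U.filter (fun x => D pre x ∧ ∀ b ∈ U, b ≤ x + r) = {a + r + 2} := by
      ext x
      rw [Finset.mem_filter, Finset.mem_singleton]
      constructor
      · rintro ⟨h1, h2, h3⟩
        have := h3 (a + r + 2) ((memU _).2 (by simp))
        rcases (memU x).1 h1 with h | h | h | h <;> omega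
      · rintro rfl
        refine ⟨(memU _).2 (by simp), hc, fun y hy => ?_⟩
        rcases (memU y).1 hy with h | h | h | h <;> omega
    rw [e1, e2, Finset.sum_singleton, Finset.sum_singleton]
    have e3 : U.erase (a + 1) = {z, a, a + r + 2} := by
      ext x
      rw [Finset.mem_erase, memU]
      simp only [Finset.mem_insert, Finset.mem_singleton]
      omega
    have e4 : U.erase (a + r + 2) = {z, a, a + 1} := by
      ext x
      rw [Finset.mem_erase, memU]
      simp only [Finset.mem_insert, Finset.mem_singleton]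
      omega
    have h6 : N (ok12 D r) 3 pre (U.erase (a + r + 2)) = 6 := by
      rw [e4, N12_eq_factorial 3]
      · rfl
      · rw [Finset.card_eq_three]
        exact ⟨z, a, a + 1, by omega, by omega, by omega, rfl⟩
      · intro suf x hx b hb hxb
        simp only [Finset.mem_insert, Finset.mem_singleton] at hx hb
        have : x = z := by omega
        rw [this]
        exact hz suf
    have h5 : N (ok12 D r) 3 pre (U.erase (a + 1)) ≤ 5 := by
      rw [e3]
      obtain ⟨V, hV⟩ : ∃ V : Finset ℕ, V = {z, a, a + r + 2} := ⟨_, rfl⟩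
      have memV : ∀ x, x ∈ V ↔ x = z ∨ x = a ∨ x = a + r + 2 := by
        intro x; rw [hV]; simp
      have hVc : V.card = 3 := by
        rw [hV, Finset.card_eq_three]
        exact ⟨z, a, a + r + 2, by omega, by omega, by omega, rfl⟩
      rw [← hV]
      have s1 : N (ok12 D r) 3 pre V ≤ ∑ c ∈ V, N (ok12 D r) 2 (pre ++ [c]) (V.erase c) := by
        simp only [N]
        exact Finset.sum_le_sum_of_subset (Finset.filter_subset _ _)
      refine s1.trans ?_
      rw [hV, Finset.sum_insert (by simp; omega), Finset.sum_insert (by simp; omega),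
        Finset.sum_singleton, ← hV]
      have b2 : ∀ c ∈ V, N (ok12 D r) 2 (pre ++ [c]) (V.erase c) ≤ 2 := by
        intro c hc
        apply N_le_factorial
        rw [Finset.card_erase_of_mem hc, hVc]
      have b1 : N (ok12 D r) 2 (pre ++ [z]) (V.erase z) ≤ 1 := by
        have e5 : (V.erase z).filter (ok12 D r (pre ++ [z]) (V.erase z)) ⊆ {a + r + 2} := by
          intro x hx
          rw [Finset.mem_filter, Finset.mem_erase, memV] at hx
          rw [Finset.mem_singleton]
          rcases hx.1.2 with h | h | h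
          · exact absurd h hx.1.1
          · exfalso
            apply hx.2
            refine ⟨h ▸ haz, a + r + 2, ?_, by omega⟩
            rw [Finset.mem_erase, memV]
            exact ⟨by omega, by simp⟩
          · exact h
        calc N (ok12 D r) 2 (pre ++ [z]) (V.erase z)
            ≤ ∑ c ∈ ({a + r + 2} : Finset ℕ),
              N (ok12 D r) 1 (pre ++ [z] ++ [c]) ((V.erase z).erase c) := by
              simp only [N]
              exact Finset.sum_le_sum_of_subset e5
          _ ≤ 1 := by
              rw [Finset.sum_singleton]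
              apply N_le_factorial
              rw [Finset.card_erase_of_mem, Finset.card_erase_of_mem, hVc]
              · rw [memV]; simp
              · rw [Finset.mem_erase, memV]
                exact ⟨by omega, by simp⟩
      have b3 := b2 a ((memV a).2 (by simp))
      have b4 := b2 (a + r + 2) ((memV _).2 (by simp))
      omega
    have h7 : N (ok21 D r) 3 (pre ++ [a + 1]) (U.erase (a + 1)) ≤ 5 :=
      (N21_le_N12 hD _ _ _).trans ((N12_del hD hb).le.trans h5)
    rw [h6]
    omega

end Pool.Agent.Q296.Dist
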