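import Pool.Agent.Q296.Dist.Words

/-! Avoiders of `dist_r(σ ⊕ 12)` and `dist_r(σ ⊕ 21)`: the general inequality. -/

set_option autoImplicit false

namespace Pool.Agent.Q296.Dist

open Finset Pool.Agent.Q296.DP

/-- the word of columns of a permutation, by increasing values -/
def word {n : ℕ} (π : Equiv.Perm (Fin n)) : List ℕ := List.ofFn (fun v : Fin n => (π.symm v : ℕ))

lemma word_length {n : ℕ} (π : Equiv.Perm (Fin n)) : (word π).length = n := by
  simp [word]

lemma word_getElem {n : ℕ} (π : Equiv.Perm (Fin n)) (v : ℕ) (h : v < (word π).length) :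
    (word π)[v] = (π.symm ⟨v, by rw [word_length] at h; exact h⟩ : ℕ) := by
  simp [word]

lemma word_nodup {n : ℕ} (π : Equiv.Perm (Fin n)) : (word π).Nodup := by
  unfold word
  rw [List.nodup_ofFn]
  intro a b h
  exact π.symm.injective (Fin.ext h)

lemma mem_word {n : ℕ} (π : Equiv.Perm (Fin n)) (x : ℕ) : x ∈ word π ↔ x < n := by
  unfold word
  rw [List.mem_ofFn]
  constructor
  · rintro ⟨v, rfl⟩; exact (π.symm v).2
  · intro h
    exact ⟨π ⟨x, h⟩, by simp⟩

lemma word_toFinset {n : ℕ} (π : Equiv.Perm (Fin n)) : (word π).toFinset = Finset.range n := by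
  ext x
  rw [List.mem_toFinset, mem_word, Finset.mem_range]

lemma word_idxOf {n : ℕ} (π : Equiv.Perm (Fin n)) (x : Fin n) :
    (word π).idxOf (x : ℕ) = π x := by
  have h : ((π x : Fin n) : ℕ) < (word π).length := by rw [word_length]; exact (π x).2
  have h1 := (word_nodup π).idxOf_getElem _ h
  rw [word_getElem] at h1
  simpa using h1

lemma word_pair {n : ℕ} (π : Equiv.Perm (Fin n)) (x y : Fin n) :
    [(x : ℕ), (y : ℕ)].Sublist (word π) ↔ π x < π y := by
  rw [pair_iff (word_nodup π), mem_word, mem_word, word_idxOf, word_idxOf, Fin.lt_def]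
  exact ⟨fun h => h.2.2, fun h => ⟨x.2, y.2, h⟩⟩

lemma contains_iff {m n : ℕ} (r : ℕ) (q : Equiv.Perm (Fin m)) (π : Equiv.Perm (Fin n)) :
    Contains r q π ↔ LC r q (word π) := by
  constructor
  · rintro ⟨i, h1, h2⟩
    refine ⟨fun t => (i t : ℕ), fun t => (mem_word π _).2 (i t).2, h1, fun s t hst => ?_⟩
    rw [word_pair]
    exact (h2 s t).1 hst
  · rintro ⟨i, h1, h2, h3⟩
    have h4 : ∀ t, i t < n := fun t => (mem_word π _).1 (h1 t)
    have key : ∀ s t : Fin m, q s < q t → π ⟨i s, h4 s⟩ < π ⟨i t, h4 t⟩ := by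
      intro s t hst
      rw [← word_pair]
      exact h3 s t hst
    refine ⟨fun t => ⟨i t, h4 t⟩, h2, fun s t => ⟨key s t, fun h => ?_⟩⟩
    rcases lt_trichotomy (q s) (q t) with h5 | h5 | h5
    · exact h5
    · have : s = t := q.injective h5
      subst this
      exact absurd h (lt_irrefl _)
    · exact absurd h (not_lt.2 (key t s h5).le)

lemma exists_word {n : ℕ} {w : List ℕ} (h1 : w.Nodup) (h2 : w.toFinset = Finset.range n) :
    ∃ π : Equiv.Perm (Fin n), word π = w := by
  have hlen : w.length = n := by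
    rw [← List.toFinset_card_of_nodup h1, h2, Finset.card_range]
  have hmem : ∀ x ∈ w, x < n := by
    intro x hx
    rw [← List.mem_toFinset, h2, Finset.mem_range] at hx
    exact hx
  have hb : Function.Bijective (fun v : Fin n =>
      (⟨w[(v : ℕ)]'(by rw [hlen]; exact v.2), hmem _ (List.getElem_mem _)⟩ : Fin n)) := by
    apply Finite.injective_iff_bijective.1
    intro a b hab
    simp only [Fin.mk.injEq] at hab
    exact Fin.ext ((h1.getElem_inj_iff).1 hab)
  refine ⟨(Equiv.ofBijective _ hb).symm, ?_⟩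
  apply List.ext_getElem
  · rw [word_length, hlen]
  · intro i hi hi'
    rw [word_getElem]
    simp

lemma av_eq_N {m n r : ℕ} {q : Equiv.Perm (Fin m)} {ok : List ℕ → Finset ℕ → ℕ → Prop}
    (h : ∀ w : List ℕ, w.Nodup → (Good ok [] w ↔ ¬ LC r q w)) :
    av r q n = N ok n [] (Finset.range n) := by
  classical
  rw [← card_L]
  have e : (L ok n [] (Finset.range n)).card = Nat.card {w // w ∈ L ok n [] (Finset.range n)} := by
    rw [Nat.card_eq_fintype_card, Fintype.card_coe]
  rw [e]
  unfold av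
  have hmem : ∀ π : Equiv.Perm (Fin n), ¬ Contains r q π ↔
      word π ∈ L ok n [] (Finset.range n) := by
    intro π
    rw [mem_L, h _ (word_nodup π), contains_iff]
    exact ⟨fun h => ⟨word_length π, word_nodup π, word_toFinset π, h⟩, fun h => h.2.2.2⟩
  apply Nat.card_eq_of_bijective (fun π : {π : Equiv.Perm (Fin n) // ¬ Contains r q π} =>
    (⟨word π.1, (hmem π.1).1 π.2⟩ : {w // w ∈ L ok n [] (Finset.range n)}))
  constructor
  · rintro ⟨π, hπ⟩ ⟨π', hπ'⟩ h1
    simp only [Subtype.mk.injEq] at h1 ⊢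
    apply Equiv.symm_bijective.injective
    ext v
    have h2 : (v : ℕ) < (word π).length := by rw [word_length]; exact v.2
    have h3 : (v : ℕ) < (word π').length := by rw [word_length]; exact v.2
    have h4 : (word π)[(v : ℕ)] = (word π')[(v : ℕ)] := by simp only [h1]
    rw [word_getElem, word_getElem] at h4
    exact h4
  · rintro ⟨w, hw⟩
    have hw' := (mem_L _ _ _ _ _).1 hw
    obtain ⟨π, hπ⟩ := exists_word hw'.2.1 hw'.2.2.1
    refine ⟨⟨π, (hmem π).2 (by rw [hπ]; exact hw)⟩, ?_⟩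
    simp only [hπ]

theorem av12_eq {k : ℕ} (r n : ℕ) {σ : Equiv.Perm (Fin k)} {q : Equiv.Perm (Fin (k + 2))}
    (hq : Is12 σ q) : av r q n = N (ok12 (DomP r σ) r) n [] (Finset.range n) :=
  av_eq_N fun _ hw => good12_iff r hq hw

theorem av21_eq {k : ℕ} (r n : ℕ) {σ : Equiv.Perm (Fin k)} {q : Equiv.Perm (Fin (k + 2))}
    (hq : Is21 σ q) : av r q n = N (ok21 (DomP r σ) r) n [] (Finset.range n) :=
  av_eq_N fun _ hw => good21_iff r hq hw

/-- **General inequality.** -/
theorem av_le_av {k : ℕ} (r n : ℕ) {σ : Equiv.Perm (Fin k)} {q q' : Equiv.Perm (Fin (k + 2))}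
    (hq : Is12 σ q) (hq' : Is21 σ q') : av r q' n ≤ av r q n := by
  rw [av12_eq r n hq, av21_eq r n hq']
  exact N21_le_N12 (DomP_dom r σ) _ _ _

end Pool.Agent.Q296.Dist
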