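import Pool.Agent.Q296.Dist.Link

/-! Strictness of the general inequality for `r ≥ 1`, `k ≥ 1` and `n ≥ (k + 1) (r + 1) + 2`. -/

set_option autoImplicit false

namespace Pool.Agent.Q296.Dist

open Finset Pool.Agent.Q296.DP

lemma exists_sorted (T : ℕ → ℕ) (S : Finset ℕ) : ∃ P : List ℕ, P.Nodup ∧ P.toFinset = S ∧
    ∀ x ∈ S, ∀ y ∈ S, T x < T y → [x, y].Sublist P := by
  classical
  induction S using Finset.induction_on_max_value T with
  | empty => exact ⟨[], by simp, by simp, by simp⟩
  | insert a s ha hmax ih =>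
    obtain ⟨P, h1, h2, h3⟩ := ih
    refine ⟨P ++ [a], ?_, ?_, ?_⟩
    · rw [List.nodup_append]
      refine ⟨h1, by simp, fun x hx y hy => ?_⟩
      rw [List.mem_singleton] at hy
      subst hy
      rintro rfl
      rw [← List.mem_toFinset, h2] at hx
      exact ha hx
    · rw [List.toFinset_append, h2]
      ext x; simp
    · intro x hx y hy hxy
      rw [Finset.mem_insert] at hx hy
      rcases hx with rfl | hx
      · rcases hy with rfl | hy
        · exact absurd hxy (lt_irrefl _)
        · exact absurd hxy (not_lt.2 (hmax y hy))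
      · rcases hy with rfl | hy
        · have hx' : x ∈ P := by rw [← List.mem_toFinset, h2]; exact hx
          exact List.Sublist.append (List.singleton_sublist.2 hx') (List.Sublist.refl _)
        · exact (h3 x hx y hy hxy).trans (List.sublist_append_left _ _)

lemma chain_lower {k r : ℕ} {i : Fin k → ℕ}
    (h : ∀ s t : Fin k, (s : ℕ) + 1 = t → i s + r + 1 ≤ i t) :
    ∀ (t : ℕ) (ht : t < k), t * (r + 1) ≤ i ⟨t, ht⟩ := by
  intro t
  induction t with
  | zero => intro _; simp
  | succ t ih =>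
    intro ht
    have h1 := ih (by omega)
    have h2 := h ⟨t, by omega⟩ ⟨t + 1, ht⟩ rfl
    have : (t + 1) * (r + 1) = t * (r + 1) + (r + 1) := by ring
    omega

lemma chain_upper {k r c : ℕ} {i : Fin k → ℕ}
    (h : ∀ s t : Fin k, (s : ℕ) + 1 = t → i s + r + 1 ≤ i t) (h2 : ∀ t, i t + r + 1 ≤ c) :
    ∀ (d t : ℕ) (ht : t < k), t + d + 1 = k → i ⟨t, ht⟩ + (d + 1) * (r + 1) ≤ c := by
  intro d
  induction d with
  | zero => intro t ht _; have := h2 ⟨t, ht⟩; omega
  | succ d ih =>
    intro t ht htd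
    have h1 := ih (t + 1) (by omega) (by omega)
    have h3 := h ⟨t, ht⟩ ⟨t + 1, by omega⟩ rfl
    have : (d + 1 + 1) * (r + 1) = (d + 1) * (r + 1) + (r + 1) := by ring
    omega

lemma DomP_ge {k r : ℕ} (hk : 1 ≤ k) {σ : Equiv.Perm (Fin k)} {pre : List ℕ} {c : ℕ}
    (h : DomP r σ pre c) : k * (r + 1) ≤ c := by
  obtain ⟨i, _, h2, _, h4⟩ := h
  have h5 := chain_lower h2 (k - 1) (by omega)
  have h6 := h4 ⟨k - 1, by omega⟩
  obtain ⟨j, rfl⟩ : ∃ j, k = j + 1 := ⟨k - 1, by omega⟩
  simp only [Nat.add_sub_cancel] at h5 h6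
  have : (j + 1) * (r + 1) = j * (r + 1) + (r + 1) := by ring
  omega

lemma DomP_lt {k r : ℕ} (hk : 1 ≤ k) {σ : Equiv.Perm (Fin k)} {pre : List ℕ} {c : ℕ}
    (h : DomP r σ pre c) : ∃ y ∈ pre, y < c := by
  obtain ⟨i, h1, _, _, h4⟩ := h
  exact ⟨i ⟨0, hk⟩, h1 _, by have := h4 ⟨0, hk⟩; omega⟩

theorem strict_N {k r n : ℕ} (hk : 1 ≤ k) (hr : 1 ≤ r) (σ : Equiv.Perm (Fin k))
    (hn : (k + 1) * (r + 1) + 2 ≤ n) :
    N (ok21 (DomP r σ) r) n [] (Finset.range n) < N (ok12 (DomP r σ) r) n [] (Finset.range n) := by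
  classical
  have hD := DomP_dom r σ
  obtain ⟨a, ha⟩ : ∃ a, a = k * (r + 1) := ⟨_, rfl⟩
  obtain ⟨ts, hts⟩ : ∃ ts : Fin k, (σ ts : ℕ) = k - 1 :=
    ⟨σ.symm ⟨k - 1, by omega⟩, by simp⟩
  obtain ⟨z, hz⟩ : ∃ z, z = (ts : ℕ) * (r + 1) := ⟨_, rfl⟩
  have hmulle : ∀ t : Fin k, (t : ℕ) * (r + 1) + (r + 1) ≤ a := by
    intro t
    have h1 : ((t : ℕ) + 1) * (r + 1) ≤ k * (r + 1) := Nat.mul_le_mul_right _ t.2
    have h2 : ((t : ℕ) + 1) * (r + 1) = (t : ℕ) * (r + 1) + (r + 1) := by ring
    omega
  have hza : z < a := by have := hmulle ts; omega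
  have hn' : a + r + 2 < n := by
    have : (k + 1) * (r + 1) = a + (r + 1) := by rw [ha]; ring
    omega
  obtain ⟨S, hS⟩ : ∃ S : Finset ℕ, S = Finset.range n \ {z, a, a + 1, a + r + 2} := ⟨_, rfl⟩
  have memS : ∀ x, x ∈ S ↔ x < n ∧ x ≠ z ∧ x ≠ a ∧ x ≠ a + 1 ∧ x ≠ a + r + 2 := by
    intro x
    rw [hS]
    simp
  obtain ⟨T, hT⟩ : ∃ T : ℕ → ℕ, T = fun y =>
      if h : y / (r + 1) < k then n + (σ ⟨y / (r + 1), h⟩ : ℕ) else n - y := ⟨_, rfl⟩
  have T1 : ∀ (t : Fin k) (j : ℕ), j < r + 1 → T ((t : ℕ) * (r + 1) + j) = n + σ t := by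
    intro t j hj
    have h1 : ((t : ℕ) * (r + 1) + j) / (r + 1) = t := by
      rw [Nat.mul_comm, Nat.mul_add_div (by omega), Nat.div_eq_of_lt hj, add_zero]
    rw [hT]
    simp only [h1]
    rw [dif_pos t.2]
  have T2 : ∀ y, a ≤ y → T y = n - y := by
    intro y hy
    rw [hT]
    simp only
    rw [dif_neg]
    rw [not_lt, Nat.le_div_iff_mul_le (by omega), ← ha]
    exact hy
  have T3 : ∀ y, y < a → n ≤ T y := by
    intro y hy
    have h1 : y / (r + 1) < k := by
      rw [Nat.div_lt_iff_lt_mul (by omega), ← ha]; exact hy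
    rw [hT]
    simp only
    rw [dif_pos h1]
    omega
  obtain ⟨P, P1, P2, P3⟩ := exists_sorted T S
  have memP : ∀ x, x ∈ P ↔ x < n ∧ x ≠ z ∧ x ≠ a ∧ x ≠ a + 1 ∧ x ≠ a + r + 2 := by
    intro x
    rw [← List.mem_toFinset, P2, memS]
  have ne_z : ∀ t : Fin k, (t : ℕ) * (r + 1) + 1 ≠ z := by
    intro t h
    rw [hz] at h
    have h1 : ((t : ℕ) * (r + 1) + 1) % (r + 1) = 1 := by
      rw [Nat.mul_comm, Nat.mul_add_mod, Nat.mod_eq_of_lt (by omega)]
    rw [h, Nat.mul_mod_left] at h1
    omega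
  have mem1 : ∀ t : Fin k, (t : ℕ) * (r + 1) + 1 ∈ P := by
    intro t
    rw [memP]
    have := hmulle t
    exact ⟨by omega, ne_z t, by omega, by omega, by omega⟩
  have mem0 : ∀ t : Fin k, t ≠ ts → (t : ℕ) * (r + 1) ∈ P := by
    intro t ht
    rw [memP]
    have := hmulle t
    refine ⟨by omega, ?_, by omega, by omega, by omega⟩
    rw [hz]
    intro h
    exact ht (Fin.ext (Nat.eq_of_mul_eq_mul_right (by omega) h))
  have hb : DomP r σ P (a + 1) := by
    refine ⟨fun t => (t : ℕ) * (r + 1) + 1, mem1, ?_, ?_, ?_⟩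
    · intro s t hst
      beta_reduce
      rw [← hst]
      have : ((s : ℕ) + 1) * (r + 1) = (s : ℕ) * (r + 1) + (r + 1) := by ring
      omega
    · intro s t hst
      beta_reduce
      apply P3
      · rw [← P2, List.mem_toFinset]; exact mem1 s
      · rw [← P2, List.mem_toFinset]; exact mem1 t
      · rw [T1 s 1 (by omega), T1 t 1 (by omega)]
        rw [Fin.lt_def] at hst
        omega
    · intro t
      beta_reduce
      have := hmulle t
      omega
  have haz : DomP r σ (P ++ [z]) a := by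
    refine ⟨fun t => (t : ℕ) * (r + 1), ?_, ?_, ?_, ?_⟩
    · intro t
      beta_reduce
      by_cases ht : t = ts
      · subst ht
        rw [← hz]; simp
      · exact List.mem_append_left _ (mem0 t ht)
    · intro s t hst
      beta_reduce
      rw [← hst]
      have : ((s : ℕ) + 1) * (r + 1) = (s : ℕ) * (r + 1) + (r + 1) := by ring
      omega
    · intro s t hst
      have hs : s ≠ ts := by
        rintro rfl
        rw [Fin.lt_def, hts] at hst
        have := (σ t).2
        omega
      beta_reduce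
      by_cases ht : t = ts
      · subst ht
        rw [← hz]
        exact List.Sublist.append (List.singleton_sublist.2 (mem0 s hs)) (List.Sublist.refl _)
      · refine List.Sublist.trans ?_ (List.sublist_append_left _ _)
        apply P3
        · rw [← P2, List.mem_toFinset]; exact mem0 s hs
        · rw [← P2, List.mem_toFinset]; exact mem0 t ht
        · have h1 := T1 s 0 (by omega)
          have h2 := T1 t 0 (by omega)
          rw [add_zero] at h1 h2
          rw [h1, h2]
          rw [Fin.lt_def] at hst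
          omega
    · intro t
      beta_reduce
      have := hmulle t
      omega
  have hna : ¬ DomP r σ P a := by
    rintro ⟨i, h1, h2, h3, h4⟩
    have h5 := chain_lower h2 ts ts.2
    have h6 := chain_upper h2 h4 (k - 1 - ts) ts ts.2 (by have := ts.2; omega)
    have h7 : (k - 1 - (ts : ℕ) + 1) * (r + 1) + (ts : ℕ) * (r + 1) = k * (r + 1) := by
      rw [← add_mul]
      congr 1
      have := ts.2; omega
    have h8 : i ts = z := by
      rw [hz]
      have e : i ⟨(ts : ℕ), ts.2⟩ = i ts := rfl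
      rw [e] at h5 h6
      omega
    exact ((memP _).1 (h1 ts)).2.1 h8
  have hzn : ∀ suf, ¬ DomP r σ (P ++ suf) z := by
    intro suf h
    have := DomP_ge hk h
    omega
  have hstr := strict_four hD hr hza hzn hna hb haz
  have hsd : Finset.range n \ P.toFinset = {z, a, a + 1, a + r + 2} := by
    rw [P2, hS, Finset.sdiff_sdiff_eq_self]
    intro x hx
    simp only [Finset.mem_insert, Finset.mem_singleton] at hx
    rw [Finset.mem_range]
    omega
  have hlen : 4 + P.length = n := by
    have h1 : P.length = S.card := by rw [← P2, List.toFinset_card_of_nodup P1]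
    have h2 : ({z, a, a + 1, a + r + 2} : Finset ℕ).card = 4 := by
      rw [Finset.card_insert_of_notMem, Finset.card_insert_of_notMem,
        Finset.card_insert_of_notMem, Finset.card_singleton]
      · simp; omega
      · simp; omega
      · simp; omega
    have h3 : S.card = n - 4 := by
      rw [hS, Finset.card_sdiff_of_subset, h2, Finset.card_range]
      intro x hx
      simp only [Finset.mem_insert, Finset.mem_singleton] at hx
      rw [Finset.mem_range]
      omega
    omega
  have hfin := strict_path (r := r) hD P [] (Finset.range n) 4 P1 ?_ ?_ ?_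
  · rw [hlen] at hfin
    exact hfin
  · intro c hc
    rw [Finset.mem_range]
    exact ((memP c).1 hc).1
  · intro l1 x l2 he hDx
    rw [List.nil_append] at hDx
    have h1 := DomP_ge hk hDx
    rw [← ha] at h1
    obtain ⟨y, hy, hyx⟩ := DomP_lt hk hDx
    have hxP : x ∈ P := by rw [he]; simp
    have hyP : y ∈ P := by rw [he]; simp [hy]
    have hx := (memP x).1 hxP
    have hTxy : T x < T y := by
      rw [T2 x h1]
      by_cases hya : y < a
      · have := T3 y hya
        omega
      · rw [T2 y (by omega)]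
        omega
    have h2 := P3 x (by rw [memS]; exact hx) y (by rw [memS]; exact (memP y).1 hyP) hTxy
    have h3 : [y, x].Sublist P := by
      rw [he]
      exact List.Sublist.append (List.singleton_sublist.2 hy)
        (List.Sublist.cons_cons _ (List.nil_sublist _))
    have h4 := ((pair_iff P1 x y).1 h2).2.2
    have h5 := ((pair_iff P1 y x).1 h3).2.2
    omega
  · rw [List.nil_append, hsd]
    exact hstr

/-- **Strict inequality.** -/
theorem av_lt_av {k r n : ℕ} (hk : 1 ≤ k) (hr : 1 ≤ r) {σ : Equiv.Perm (Fin k)}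
    {q q' : Equiv.Perm (Fin (k + 2))} (hq : Is12 σ q) (hq' : Is21 σ q')
    (hn : (k + 1) * (r + 1) + 2 ≤ n) : av r q' n < av r q n := by
  rw [av12_eq r n hq, av21_eq r n hq']
  exact strict_N hk hr σ hn

/-! ### symmetries -/

lemma contains_rev {m n r : ℕ} (q : Equiv.Perm (Fin m)) (π : Equiv.Perm (Fin n))
    (h : Contains r q π) : Contains r (q * Fin.revPerm) (π * Fin.revPerm) := by
  obtain ⟨i, h1, h2⟩ := h
  refine ⟨fun j => (i j.rev).rev, fun j k hjk => ?_, fun j k => ?_⟩
  · have h3 := h1 k.rev j.rev (by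
      rw [Fin.val_rev, Fin.val_rev]
      have := k.2
      omega)
    rw [Fin.val_rev, Fin.val_rev]
    have := (i j.rev).2
    have := (i k.rev).2
    omega
  · simp only [Equiv.Perm.mul_apply, Fin.revPerm_apply, Fin.rev_rev]
    exact h2 _ _

lemma contains_comp {m n r : ℕ} (q : Equiv.Perm (Fin m)) (π : Equiv.Perm (Fin n))
    (h : Contains r q π) : Contains r (Fin.revPerm * q) (Fin.revPerm * π) := by
  obtain ⟨i, h1, h2⟩ := h
  refine ⟨i, h1, fun j k => ?_⟩
  simp only [Equiv.Perm.mul_apply, Fin.revPerm_apply, Fin.rev_lt_rev]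
  exact h2 _ _

lemma revPerm_mul_self {n : ℕ} : (Fin.revPerm : Equiv.Perm (Fin n)) * Fin.revPerm = 1 := by
  ext i; simp

theorem av_rev {m : ℕ} (r n : ℕ) (q : Equiv.Perm (Fin m)) :
    av r (q * Fin.revPerm) n = av r q n := by
  unfold av
  apply Nat.card_congr
  refine Equiv.subtypeEquiv (Equiv.mulRight Fin.revPerm) (fun π => ?_)
  rw [not_iff_not]
  simp only [Equiv.coe_mulRight]
  constructor
  · intro h
    have := contains_rev _ _ h
    rwa [mul_assoc, revPerm_mul_self, mul_one] at this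
  · intro h
    have := contains_rev _ _ h
    rwa [mul_assoc, revPerm_mul_self, mul_one] at this

theorem av_comp {m : ℕ} (r n : ℕ) (q : Equiv.Perm (Fin m)) :
    av r (Fin.revPerm * q) n = av r q n := by
  unfold av
  apply Nat.card_congr
  refine Equiv.subtypeEquiv (Equiv.mulLeft Fin.revPerm) (fun π => ?_)
  rw [not_iff_not]
  simp only [Equiv.coe_mulLeft]
  constructor
  · intro h
    have := contains_comp _ _ h
    rwa [← mul_assoc, revPerm_mul_self, one_mul] at this
  · intro h
    have := contains_comp _ _ h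
    rwa [← mul_assoc, revPerm_mul_self, one_mul] at this

end Pool.Agent.Q296.Dist
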