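import Pool.Agent.Q296.Dist.Core
import Pool.Agent.Q296.DP.Upper

/-! Permutations avoiding `dist_r(σ ⊕ 12)` and `dist_r(σ ⊕ 21)` as words of columns. -/

set_option autoImplicit false

namespace Pool.Agent.Q296.Dist

open Finset

/-- all steps of the word `w` (after `pre`) are allowed -/
def Good (ok : List ℕ → Finset ℕ → ℕ → Prop) : List ℕ → List ℕ → Prop
  | _, [] => True
  | pre, c :: w => ok pre (insert c w.toFinset) c ∧ Good ok (pre ++ [c]) w

lemma Good_iff (ok : List ℕ → Finset ℕ → ℕ → Prop) : ∀ (w pre : List ℕ), Good ok pre w ↔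
    ∀ l1 c l2, w = l1 ++ c :: l2 → ok (pre ++ l1) (insert c l2.toFinset) c := by
  intro w
  induction w with
  | nil =>
    intro pre
    constructor
    · intro _ l1 c l2 h; simp at h
    · intro _; trivial
  | cons d w ih =>
    intro pre
    show (ok pre (insert d w.toFinset) d ∧ Good ok (pre ++ [d]) w) ↔ _
    rw [ih (pre ++ [d])]
    constructor
    · rintro ⟨h1, h2⟩ l1 c l2 h
      cases l1 with
      | nil =>
        simp only [List.nil_append, List.cons.injEq] at h
        obtain ⟨rfl, rfl⟩ := h
        simpa using h1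
      | cons e l1 =>
        simp only [List.cons_append, List.cons.injEq] at h
        obtain ⟨rfl, h⟩ := h
        have := h2 l1 c l2 h
        rw [List.append_assoc] at this
        exact this
    · intro h
      refine ⟨by simpa using h [] d w rfl, fun l1 c l2 h1 => ?_⟩
      have := h (d :: l1) c l2 (by rw [h1]; rfl)
      rw [List.append_assoc]
      exact this

open Classical in
/-- the set of good orderings of `U` -/
noncomputable def L (ok : List ℕ → Finset ℕ → ℕ → Prop) : ℕ → List ℕ → Finset ℕ →
    Finset (List ℕ)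
  | 0, _, U => if U = ∅ then {[]} else ∅
  | n + 1, pre, U => (U.filter (ok pre U)).biUnion
      (fun c => (L ok n (pre ++ [c]) (U.erase c)).image (List.cons c))

lemma mem_L (ok : List ℕ → Finset ℕ → ℕ → Prop) : ∀ (n : ℕ) (pre : List ℕ) (U : Finset ℕ)
    (w : List ℕ), w ∈ L ok n pre U ↔ w.length = n ∧ w.Nodup ∧ w.toFinset = U ∧ Good ok pre w := by
  classical
  intro n
  induction n with
  | zero =>
    intro pre U w
    simp only [L]
    constructor
    · intro h
      split_ifs at h with hU
      · rw [Finset.mem_singleton] at h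
        subst h; subst hU
        simp [Good]
      · simp at h
    · rintro ⟨h1, h2, h3, h4⟩
      have : w = [] := List.length_eq_zero_iff.1 h1
      subst this
      simp only [List.toFinset_nil] at h3
      rw [if_pos h3.symm]
      simp
  | succ n ih =>
    intro pre U w
    simp only [L, Finset.mem_biUnion, Finset.mem_filter, Finset.mem_image]
    constructor
    · rintro ⟨c, ⟨hc, hok⟩, w', hw', rfl⟩
      rw [ih] at hw'
      obtain ⟨h1, h2, h3, h4⟩ := hw'
      have hcw : c ∉ w' := by
        rw [← List.mem_toFinset, h3]; simp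
      have e : insert c w'.toFinset = U := by rw [h3, Finset.insert_erase hc]
      refine ⟨by simp [h1], List.nodup_cons.2 ⟨hcw, h2⟩, ?_, ?_⟩
      · rw [List.toFinset_cons, e]
      · show ok pre (insert c w'.toFinset) c ∧ _
        rw [e]
        exact ⟨hok, h4⟩
    · rintro ⟨h1, h2, h3, h4⟩
      cases w with
      | nil => simp at h1
      | cons c w' =>
        rw [List.nodup_cons] at h2
        rw [List.toFinset_cons] at h3
        obtain ⟨h5, h6⟩ := h4
        rw [h3] at h5
        refine ⟨c, ⟨by rw [← h3]; simp, h5⟩, w', ?_, rfl⟩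
        rw [ih]
        refine ⟨by simpa using h1, h2.2, ?_, h6⟩
        rw [← h3, Finset.erase_insert]
        rw [List.mem_toFinset]; exact h2.1

lemma card_L (ok : List ℕ → Finset ℕ → ℕ → Prop) : ∀ (n : ℕ) (pre : List ℕ) (U : Finset ℕ),
    (L ok n pre U).card = N ok n pre U := by
  classical
  intro n
  induction n with
  | zero =>
    intro pre U
    simp only [L, N]
    split_ifs <;> simp
  | succ n ih =>
    intro pre U
    simp only [L, N]
    rw [Finset.card_biUnion]
    · apply Finset.sum_congr rfl
      intro c _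
      rw [Finset.card_image_of_injective _ (List.cons_injective), ih]
    · intro c _ d _ hcd
      simp only [Function.onFun]
      rw [Finset.disjoint_left]
      intro w h1 h2
      rw [Finset.mem_image] at h1 h2
      obtain ⟨w1, _, rfl⟩ := h1
      obtain ⟨w2, _, h3⟩ := h2
      simp only [List.cons.injEq] at h3
      exact hcd h3.1.symm

/-! ### pairs in lists without repetition -/

lemma pair_iff : ∀ {l : List ℕ}, l.Nodup → ∀ x y : ℕ,
    [x, y].Sublist l ↔ x ∈ l ∧ y ∈ l ∧ l.idxOf x < l.idxOf y := by
  intro l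
  induction l with
  | nil => intro _ x y; simp
  | cons z l ih =>
    intro h x y
    rw [List.nodup_cons] at h
    have ih' := ih h.2 x y
    constructor
    · intro hs
      rcases List.sublist_cons_iff.1 hs with h1 | ⟨r, h1, h2⟩
      · obtain ⟨h2, h3, h4⟩ := ih'.1 h1
        have hx : x ≠ z := by rintro rfl; exact h.1 h2
        have hy : y ≠ z := by rintro rfl; exact h.1 h3
        refine ⟨by simp [h2], by simp [h3], ?_⟩
        rw [List.idxOf_cons_ne _ (Ne.symm hx), List.idxOf_cons_ne _ (Ne.symm hy)]
        omega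
      · simp only [List.cons.injEq] at h1
        obtain ⟨rfl, rfl⟩ := h1
        rw [List.singleton_sublist] at h2
        have hy : y ≠ x := by rintro rfl; exact h.1 h2
        refine ⟨by simp, by simp [h2], ?_⟩
        rw [List.idxOf_cons_self, List.idxOf_cons_ne _ (Ne.symm hy)]
        omega
    · rintro ⟨h1, h2, h3⟩
      by_cases hx : x = z
      · subst hx
        have hy : y ≠ x := by rintro rfl; omega
        apply List.Sublist.cons_cons
        rw [List.singleton_sublist]
        simpa [hy] using h2
      · have hy : y ≠ z := by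
          rintro rfl
          rw [List.idxOf_cons_self] at h3
          omega
        apply List.Sublist.cons
        rw [ih']
        refine ⟨by simpa [hx] using h1, by simpa [hy] using h2, ?_⟩
        rw [List.idxOf_cons_ne _ (Ne.symm hx), List.idxOf_cons_ne _ (Ne.symm hy)] at h3
        omega

lemma pair_left {l1 l2 : List ℕ} {x a : ℕ} (h : (l1 ++ a :: l2).Nodup)
    (hs : [x, a].Sublist (l1 ++ a :: l2)) : x ∈ l1 := by
  obtain ⟨h1, h2, h3⟩ := (pair_iff h x a).1 hs
  have ha : a ∉ l1 := by
    intro hc
    have := (List.nodup_append.1 h).2.2 a hc a (by simp)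
    exact this rfl
  rw [List.idxOf_append_of_notMem ha, List.idxOf_cons_self] at h3
  by_contra hx
  rw [List.idxOf_append_of_notMem hx] at h3
  omega

lemma pair_right {l1 l2 : List ℕ} {a y : ℕ} (h : (l1 ++ a :: l2).Nodup)
    (hs : [a, y].Sublist (l1 ++ a :: l2)) : y ∈ l2 := by
  obtain ⟨h1, h2, h3⟩ := (pair_iff h a y).1 hs
  have ha : a ∉ l1 := by
    intro hc
    have := (List.nodup_append.1 h).2.2 a hc a (by simp)
    exact this rfl
  rw [List.idxOf_append_of_notMem ha, List.idxOf_cons_self] at h3
  have hy : y ∉ l1 := by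
    intro hy
    rw [List.idxOf_append_of_mem hy] at h3
    have := List.idxOf_lt_length_of_mem hy
    omega
  have hya : y ≠ a := by
    rintro rfl
    rw [List.idxOf_append_of_notMem ha, List.idxOf_cons_self] at h3
    omega
  simp only [List.mem_append, List.mem_cons] at h2
  tauto

lemma pair_in {l1 l2 : List ℕ} {x y : ℕ} (h : (l1 ++ l2).Nodup)
    (hs : [x, y].Sublist (l1 ++ l2)) (hy : y ∈ l1) : [x, y].Sublist l1 := by
  obtain ⟨h1, h2, h3⟩ := (pair_iff h x y).1 hs
  rw [List.idxOf_append_of_mem hy] at h3
  have h4 := List.idxOf_lt_length_of_mem hy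
  have hx : x ∈ l1 := by
    by_contra hx
    rw [List.idxOf_append_of_notMem hx] at h3
    omega
  rw [List.idxOf_append_of_mem hx] at h3
  exact (pair_iff (List.nodup_append.1 h).1 x y).2 ⟨hx, hy, h3⟩

/-! ### domination -/

/-- column `c` is dominated by an occurrence of `dist_r(σ)` in the used columns -/
def DomP (r : ℕ) {k : ℕ} (σ : Equiv.Perm (Fin k)) (pre : List ℕ) (c : ℕ) : Prop :=
  ∃ i : Fin k → ℕ, (∀ t, i t ∈ pre) ∧ (∀ s t : Fin k, (s : ℕ) + 1 = t → i s + r + 1 ≤ i t) ∧
    (∀ s t : Fin k, σ s < σ t → [i s, i t].Sublist pre) ∧ ∀ t, i t + r + 1 ≤ c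

lemma DomP_dom (r : ℕ) {k : ℕ} (σ : Equiv.Perm (Fin k)) : Dom (DomP r σ) where
  app := by
    rintro pre suf c ⟨i, h1, h2, h3, h4⟩
    exact ⟨i, fun t => List.mem_append_left _ (h1 t), h2,
      fun s t h => (h3 s t h).trans (List.sublist_append_left _ _), h4⟩
  up := by
    rintro pre c c' hc ⟨i, h1, h2, h3, h4⟩
    exact ⟨i, h1, h2, h3, fun t => (h4 t).trans hc⟩
  del := by
    have happ : ∀ (pre suf : List ℕ) (c : ℕ), DomP r σ pre c → DomP r σ (pre ++ suf) c := by
      rintro pre suf c ⟨i, h1, h2, h3, h4⟩
      exact ⟨i, fun t => List.mem_append_left _ (h1 t), h2,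
        fun s t h => (h3 s t h).trans (List.sublist_append_left _ _), h4⟩
    intro pre e suf c he
    constructor
    · rintro ⟨i, h1, h2, h3, h4⟩
      by_cases h : ∃ t, i t = e
      · obtain ⟨t, ht⟩ := h
        have h5 := h4 t
        apply happ
        obtain ⟨i', g1, g2, g3, g4⟩ := he
        exact ⟨i', g1, g2, g3, fun t => (g4 t).trans (by omega)⟩
      · push Not at h
        refine ⟨i, fun t => ?_, h2, fun s t hst => ?_, h4⟩
        · have := h1 t
          simp only [List.mem_append, List.mem_cons] at this ⊢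
          have := h t
          tauto
        · have h5 := (h3 s t hst).filter (fun x => decide (x ≠ e))
          have e1 : [i s, i t].filter (fun x => decide (x ≠ e)) = [i s, i t] := by
            rw [List.filter_cons_of_pos (by simp [h s]), List.filter_cons_of_pos (by simp [h t])]
            rfl
          rw [e1, List.filter_append,
            List.filter_cons_of_neg (a := e) (by simp)] at h5
          exact h5.trans (List.Sublist.append List.filter_sublist List.filter_sublist)
    · rintro ⟨i, h1, h2, h3, h4⟩
      refine ⟨i, fun t => ?_, h2, fun s t hst => ?_, h4⟩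
      · have := h1 t
        simp only [List.mem_append, List.mem_cons] at this ⊢
        tauto
      · exact (h3 s t hst).trans
          (List.Sublist.append (List.Sublist.refl _) (List.Sublist.cons _ (List.Sublist.refl _)))

/-- containment of a distant pattern in terms of the word of columns -/
def LC (r : ℕ) {m : ℕ} (q : Equiv.Perm (Fin m)) (w : List ℕ) : Prop :=
  ∃ i : Fin m → ℕ, (∀ t, i t ∈ w) ∧ (∀ s t : Fin m, (s : ℕ) + 1 = t → i s + r + 1 ≤ i t) ∧
    ∀ s t : Fin m, q s < q t → [i s, i t].Sublist w

/-- `q = σ ⊕ 12` -/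
def Is12 {k : ℕ} (σ : Equiv.Perm (Fin k)) (q : Equiv.Perm (Fin (k + 2))) : Prop :=
  (∀ t : Fin k, (q t.castSucc.castSucc : ℕ) = σ t) ∧ (q (Fin.last k).castSucc : ℕ) = k ∧
    (q (Fin.last (k + 1)) : ℕ) = k + 1

/-- `q = σ ⊕ 21` -/
def Is21 {k : ℕ} (σ : Equiv.Perm (Fin k)) (q : Equiv.Perm (Fin (k + 2))) : Prop :=
  (∀ t : Fin k, (q t.castSucc.castSucc : ℕ) = σ t) ∧ (q (Fin.last k).castSucc : ℕ) = k + 1 ∧
    (q (Fin.last (k + 1)) : ℕ) = k

lemma fin_cases {k : ℕ} (t : Fin (k + 2)) : (∃ s : Fin k, t = s.castSucc.castSucc) ∨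
    t = (Fin.last k).castSucc ∨ t = Fin.last (k + 1) := by
  rcases Fin.eq_castSucc_or_eq_last t with ⟨s, rfl⟩ | h
  · rcases Fin.eq_castSucc_or_eq_last s with ⟨s', rfl⟩ | h
    · exact Or.inl ⟨s', rfl⟩
    · subst h; exact Or.inr (Or.inl rfl)
  · exact Or.inr (Or.inr h)

lemma good12_iff (r : ℕ) {k : ℕ} {σ : Equiv.Perm (Fin k)} {q : Equiv.Perm (Fin (k + 2))}
    (hq : Is12 σ q) {w : List ℕ} (hw : w.Nodup) :
    Good (ok12 (DomP r σ) r) [] w ↔ ¬ LC r q w := by
  obtain ⟨q1, q2, q3⟩ := hq
  rw [Good_iff]
  constructor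
  · rintro h ⟨i, h1, h2, h3⟩
    obtain ⟨l1, l2, rfl⟩ := List.append_of_mem (h1 (Fin.last k).castSucc)
    apply h l1 _ l2 rfl
    have key : ∀ t : Fin k, [i t.castSucc.castSucc, i (Fin.last k).castSucc].Sublist
        (l1 ++ i (Fin.last k).castSucc :: l2) := by
      intro t
      apply h3
      rw [Fin.lt_def, q1, q2]
      exact (σ t).2
    have kmem : ∀ t : Fin k, i t.castSucc.castSucc ∈ l1 := fun t => pair_left hw (key t)
    rw [List.nil_append]
    refine ⟨⟨fun t => i t.castSucc.castSucc, kmem, ?_, ?_, ?_⟩, i (Fin.last (k + 1)), ?_, ?_⟩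
    · intro s t hst
      exact h2 _ _ (by simpa using hst)
    · intro s t hst
      apply pair_in hw (h3 _ _ ?_) (kmem t)
      rw [Fin.lt_def, q1, q1]
      exact hst
    · -- chain to the last
      have hch : ∀ (d : ℕ) (t : Fin k), (t : ℕ) + d + 1 = k →
          i t.castSucc.castSucc + r + 1 ≤ i (Fin.last k).castSucc := by
        intro d
        induction d with
        | zero =>
          intro t ht
          apply h2
          simp only [Fin.val_castSucc, Fin.val_last]
          omega
        | succ d ih =>
          intro t ht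
          have h5 := ih ⟨(t : ℕ) + 1, by omega⟩ (by simp only; omega)
          have h6 := h2 t.castSucc.castSucc
            (⟨(t : ℕ) + 1, by omega⟩ : Fin k).castSucc.castSucc (by simp)
          omega
      intro t
      exact hch (k - 1 - t) t (by have := t.2; omega)
    · rw [Finset.mem_insert, List.mem_toFinset]
      right
      apply pair_right hw (h3 _ _ ?_)
      rw [Fin.lt_def, q2, q3]
      omega
    · have := h2 (Fin.last k).castSucc (Fin.last (k + 1)) (by simp)
      omega
  · rintro h l1 a l2 rfl ⟨⟨i, h1, h2, h3, h4⟩, b, hb, hab⟩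
    apply h
    rw [List.nil_append] at h1 h3
    have hb2 : b ∈ l2 := by
      rw [Finset.mem_insert, List.mem_toFinset] at hb
      rcases hb with hb | hb
      · omega
      · exact hb
    have hpre : l1.Sublist (l1 ++ a :: l2) := List.sublist_append_left _ _
    have hsuf : ∀ x ∈ l1, ∀ y ∈ a :: l2, [x, y].Sublist (l1 ++ a :: l2) := by
      intro x hx y hy
      exact List.Sublist.append (List.singleton_sublist.2 hx) (List.singleton_sublist.2 hy)
    refine ⟨Fin.snoc (Fin.snoc i a : Fin (k + 1) → ℕ) b, ?_, ?_, ?_⟩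
    · intro t
      rcases fin_cases t with ⟨s, rfl⟩ | rfl | rfl
      · rw [Fin.snoc_castSucc, Fin.snoc_castSucc]
        exact List.mem_append_left _ (h1 s)
      · rw [Fin.snoc_castSucc, Fin.snoc_last]; simp
      · rw [Fin.snoc_last]; simp [hb2]
    · intro s t hst
      rcases fin_cases s with ⟨s, rfl⟩ | rfl | rfl <;>
      rcases fin_cases t with ⟨t, rfl⟩ | rfl | rfl <;>
      simp only [Fin.snoc_castSucc, Fin.snoc_last, Fin.val_castSucc, Fin.val_last] at hst ⊢
      · exact h2 s t hst
      · exact h4 s
      · have := s.2; omega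
      · have := t.2; omega
      · omega
      · omega
      · have := t.2; omega
      · omega
      · omega
    · intro s t hst
      rcases fin_cases s with ⟨s, rfl⟩ | rfl | rfl <;>
      rcases fin_cases t with ⟨t, rfl⟩ | rfl | rfl <;>
      simp only [Fin.snoc_castSucc, Fin.snoc_last]
      · rw [Fin.lt_def, q1, q1] at hst
        exact (h3 s t hst).trans hpre
      · exact hsuf _ (h1 s) _ (by simp)
      · exact hsuf _ (h1 s) _ (by simp [hb2])
      · rw [Fin.lt_def, q1, q2] at hst
        have := (σ t).2; omega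
      · exact absurd hst (lt_irrefl _)
      · refine List.Sublist.trans ?_ (List.sublist_append_right _ _)
        exact List.Sublist.cons_cons _ (List.singleton_sublist.2 hb2)
      · rw [Fin.lt_def, q1, q3] at hst
        have := (σ t).2; omega
      · rw [Fin.lt_def, q2, q3] at hst
        omega
      · exact absurd hst (lt_irrefl _)

lemma good21_iff (r : ℕ) {k : ℕ} {σ : Equiv.Perm (Fin k)} {q : Equiv.Perm (Fin (k + 2))}
    (hq : Is21 σ q) {w : List ℕ} (hw : w.Nodup) :
    Good (ok21 (DomP r σ) r) [] w ↔ ¬ LC r q w := by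
  obtain ⟨q1, q2, q3⟩ := hq
  rw [Good_iff]
  constructor
  · rintro h ⟨i, h1, h2, h3⟩
    obtain ⟨l1, l2, rfl⟩ := List.append_of_mem (h1 (Fin.last (k + 1)))
    apply h l1 _ l2 rfl
    have key : ∀ t : Fin k, [i t.castSucc.castSucc, i (Fin.last (k + 1))].Sublist
        (l1 ++ i (Fin.last (k + 1)) :: l2) := by
      intro t
      apply h3
      rw [Fin.lt_def, q1, q3]
      exact (σ t).2
    have kmem : ∀ t : Fin k, i t.castSucc.castSucc ∈ l1 := fun t => pair_left hw (key t)
    rw [List.nil_append]
    refine ⟨i (Fin.last k).castSucc, ?_, ⟨fun t => i t.castSucc.castSucc, kmem, ?_, ?_, ?_⟩, ?_⟩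
    · rw [Finset.mem_insert, List.mem_toFinset]
      right
      apply pair_right hw (h3 _ _ ?_)
      rw [Fin.lt_def, q2, q3]
      omega
    · intro s t hst
      exact h2 _ _ (by simpa using hst)
    · intro s t hst
      apply pair_in hw (h3 _ _ ?_) (kmem t)
      rw [Fin.lt_def, q1, q1]
      exact hst
    · -- chain to the last
      have hch : ∀ (d : ℕ) (t : Fin k), (t : ℕ) + d + 1 = k →
          i t.castSucc.castSucc + r + 1 ≤ i (Fin.last k).castSucc := by
        intro d
        induction d with
        | zero =>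
          intro t ht
          apply h2
          simp only [Fin.val_castSucc, Fin.val_last]
          omega
        | succ d ih =>
          intro t ht
          have h5 := ih ⟨(t : ℕ) + 1, by omega⟩ (by simp only; omega)
          have h6 := h2 t.castSucc.castSucc
            (⟨(t : ℕ) + 1, by omega⟩ : Fin k).castSucc.castSucc (by simp)
          omega
      intro t
      exact hch (k - 1 - t) t (by have := t.2; omega)
    · have := h2 (Fin.last k).castSucc (Fin.last (k + 1)) (by simp)
      omega
  · rintro h l1 b l2 rfl ⟨a, ha, ⟨i, h1, h2, h3, h4⟩, hab⟩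
    apply h
    rw [List.nil_append] at h1 h3
    have ha2 : a ∈ l2 := by
      rw [Finset.mem_insert, List.mem_toFinset] at ha
      rcases ha with ha | ha
      · omega
      · exact ha
    have hpre : l1.Sublist (l1 ++ b :: l2) := List.sublist_append_left _ _
    have hsuf : ∀ x ∈ l1, ∀ y ∈ b :: l2, [x, y].Sublist (l1 ++ b :: l2) := by
      intro x hx y hy
      exact List.Sublist.append (List.singleton_sublist.2 hx) (List.singleton_sublist.2 hy)
    refine ⟨Fin.snoc (Fin.snoc i a : Fin (k + 1) → ℕ) b, ?_, ?_, ?_⟩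
    · intro t
      rcases fin_cases t with ⟨s, rfl⟩ | rfl | rfl
      · rw [Fin.snoc_castSucc, Fin.snoc_castSucc]
        exact List.mem_append_left _ (h1 s)
      · rw [Fin.snoc_castSucc, Fin.snoc_last]; simp [ha2]
      · rw [Fin.snoc_last]; simp
    · intro s t hst
      rcases fin_cases s with ⟨s, rfl⟩ | rfl | rfl <;>
      rcases fin_cases t with ⟨t, rfl⟩ | rfl | rfl <;>
      simp only [Fin.snoc_castSucc, Fin.snoc_last, Fin.val_castSucc, Fin.val_last] at hst ⊢
      · exact h2 s t hst
      · exact h4 s
      · have := s.2; omega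
      · have := t.2; omega
      · omega
      · omega
      · have := t.2; omega
      · omega
      · omega
    · intro s t hst
      rcases fin_cases s with ⟨s, rfl⟩ | rfl | rfl <;>
      rcases fin_cases t with ⟨t, rfl⟩ | rfl | rfl <;>
      simp only [Fin.snoc_castSucc, Fin.snoc_last]
      · rw [Fin.lt_def, q1, q1] at hst
        exact (h3 s t hst).trans hpre
      · exact hsuf _ (h1 s) _ (by simp [ha2])
      · exact hsuf _ (h1 s) _ (by simp)
      · rw [Fin.lt_def, q1, q2] at hst
        have := (σ t).2; omega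
      · exact absurd hst (lt_irrefl _)
      · rw [Fin.lt_def, q2, q3] at hst
        omega
      · rw [Fin.lt_def, q1, q3] at hst
        have := (σ t).2; omega
      · refine List.Sublist.trans ?_ (List.sublist_append_right _ _)
        exact List.Sublist.cons_cons _ (List.singleton_sublist.2 ha2)
      · exact absurd hst (lt_irrefl _)

end Pool.Agent.Q296.Dist
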